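import Pool.Agent.Run7.h519.CE.TOS

/-! Project CE, piece OZ1: matrix units under an order zero completely positive map. -/

set_option autoImplicit false
set_option linter.unusedSectionVars false
open Run7.h450.CE
open scoped ComplexOrder

namespace Run7.h519.CE

section
variable {B : Type} [CStarAlgebra B]

attribute [local instance] CStarAlgebra.spectralOrder CStarAlgebra.spectralOrderedRing

lemma pos_star {x : B} (h : Pos x) : star x = x := by
  obtain ⟨c, rfl⟩ := h
  simp

variable {K : Type} [Fintype K] [DecidableEq K] {T : Matrix K K ℂ →ₗ[ℂ] B}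

lemma cp_pos (hT : CP T) (x : Matrix K K ℂ) : Pos (T (star x * x)) := by
  have := hT 1 (fun _ => x) (fun _ => 1)
  simpa using this

lemma cp_star (hT : CP T) (x : Matrix K K ℂ) : T (star x) = star (T x) := by
  have hP := pos_star (cp_pos hT x)
  have hQ : star (T 1) = T 1 := by
    have := pos_star (cp_pos hT 1)
    simpa using this
  have h1 := pos_star (hT 2 ![x, 1] ![1, 1])
  have h2 := pos_star (hT 2 ![x, 1] ![Complex.I • 1, 1])
  simp only [Fin.sum_univ_two, Matrix.cons_val_zero, Matrix.cons_val_one, star_one, one_mul,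
    mul_one, star_add, hP, hQ, star_smul, smul_mul_assoc, mul_smul_comm, smul_smul,
    Complex.star_def, Complex.conj_I, star_mul] at h1 h2
  set X := T x
  set Y := T (star x)
  set P := T (star x * x)
  set Q := T 1
  have e1 : star Y + star X = Y + X := by
    have h3 : P + star Y + (star X + Q) = P + Y + (X + Q) := h1
    calc star Y + star X = (P + star Y + (star X + Q)) - P - Q := by abel
      _ = (P + Y + (X + Q)) - P - Q := by rw [h3]
      _ = Y + X := by abel
  have hc : (starRingEnd ℂ) (-Complex.I) = Complex.I := by simp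
  rw [hc] at h2
  have e2 : Complex.I • (star Y - star X) = Complex.I • (X - Y) := by
    have h3 : Complex.I • (star Y - star X)
        = ((Complex.I * -Complex.I) • P + Complex.I • star Y + (-Complex.I • star X + Q))
          - (Complex.I * -Complex.I) • P - Q := by
      rw [smul_sub, neg_smul]; abel
    have h4 : Complex.I • (X - Y)
        = ((Complex.I * -Complex.I) • P + -Complex.I • Y + (Complex.I • X + Q))
          - (Complex.I * -Complex.I) • P - Q := by
      rw [smul_sub, neg_smul]; abel
    rw [h3, h4, h2]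
  have e3 : star Y - star X = X - Y := smul_right_injective B Complex.I_ne_zero e2
  have e4 : (2:ℂ) • Y = (2:ℂ) • star X := by
    rw [two_smul, two_smul]
    calc Y + Y = (Y + X) - (X - Y) := by abel
      _ = (star Y + star X) - (star Y - star X) := by rw [e1, e3]
      _ = star X + star X := by abel
  exact smul_right_injective B (two_ne_zero) e4

/-- Schwarz inequality -/
lemma schwarz (hT : CP T) (h1 : Pos (1 - T 1)) (x : Matrix K K ℂ) :
    star (T x) * T x ≤ T (star x * x) := by
  have hQ : star (T 1) = T 1 := by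
    have := pos_star (cp_pos hT 1)
    simpa using this
  have h2 := hT 2 ![x, 1] ![1, - T x]
  simp only [Fin.sum_univ_two, Matrix.cons_val_zero, Matrix.cons_val_one, star_one, one_mul,
    mul_one, cp_star hT, star_neg, hQ] at h2
  rw [pos_iff] at h1 h2
  have h3 : 0 ≤ star (T x) * (1 - T 1) * T x := star_left_conjugate_nonneg h1 _
  have h4 : T (star x * x) - star (T x) * T x
      = (T (star x * x) + star (T x) * -T x + (-star (T x) * T x + -star (T x) * T 1 * -T x))
        + star (T x) * (1 - T 1) * T x := by
    noncomm_ring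
  rw [← sub_nonneg, h4]
  exact add_nonneg h2 h3

/-- if `a* a ≤ c` and `c y = 0` then `a y = 0` -/
lemma zero_of_le {a c y : B} (h : star a * a ≤ c) (hc : c * y = 0) : a * y = 0 := by
  have h1 : star (a * y) * (a * y) ≤ 0 := by
    have := star_left_conjugate_le_conjugate h y
    calc star (a * y) * (a * y) = star y * (star a * a) * y := by simp only [star_mul, mul_assoc]
      _ ≤ star y * c * y := this
      _ = 0 := by rw [mul_assoc, hc, mul_zero]
  have h2 : star (a * y) * (a * y) = 0 := le_antisymm h1 (star_mul_self_nonneg _)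
  exact (CStarRing.star_mul_self_eq_zero_iff _).1 h2

end

section
variable {B : Type} [CStarAlgebra B] {ι : Type} [Fintype ι] [DecidableEq ι] {K : ι → Type}
    [∀ i, Fintype (K i)] [∀ i, DecidableEq (K i)] {φ : ∀ i, Matrix (K i) (K i) ℂ →ₗ[ℂ] B}

attribute [local instance] CStarAlgebra.spectralOrder CStarAlgebra.spectralOrderedRing

lemma sum_single (i : ι) (x : Matrix (K i) (K i) ℂ) :
    ∑ j, φ j ((Pi.single i x : ∀ i, Matrix (K i) (K i) ℂ) j) = φ i x := by
  rw [Finset.sum_eq_single i]
  · simp
  · intro j _ hj
    rw [Pi.single_eq_of_ne hj, map_zero]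
  · intro h; exact absurd (Finset.mem_univ i) h

lemma pos_single (i : ι) (x : Matrix (K i) (K i) ℂ) (hx : Pos x) (j : ι) :
    Pos ((Pi.single i x : ∀ i, Matrix (K i) (K i) ℂ) j) := by
  by_cases h : j = i
  · subst h; simpa using hx
  · rw [Pi.single_eq_of_ne h]
    exact ⟨0, by simp⟩

lemma oz_diff (hoz : OZ φ) {i i' : ι} (hii : i ≠ i') (x : Matrix (K i) (K i) ℂ)
    (z : Matrix (K i') (K i') ℂ) (hx : Pos x) (hz : Pos z) : φ i x * φ i' z = 0 := by
  have := hoz (Pi.single i x) (Pi.single i' z) (pos_single i x hx) (pos_single i' z hz) (by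
    intro j
    by_cases h : j = i
    · subst h; rw [Pi.single_eq_of_ne hii, mul_zero]
    · rw [Pi.single_eq_of_ne h, zero_mul])
  rwa [sum_single, sum_single] at this

lemma oz_same (hoz : OZ φ) (i : ι) (x z : Matrix (K i) (K i) ℂ) (hx : Pos x) (hz : Pos z)
    (hxz : x * z = 0) : φ i x * φ i z = 0 := by
  have := hoz (Pi.single i x) (Pi.single i z) (pos_single i x hx) (pos_single i z hz) (by
    intro j
    by_cases h : j = i
    · subst h; simpa using hxz
    · rw [Pi.single_eq_of_ne h, zero_mul])
  rwa [sum_single, sum_single] at this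

lemma one_le_block (hcp : ∀ i, CP (φ i)) (h1 : Pos (1 - ∑ i, φ i 1)) (i : ι) :
    Pos (1 - φ i 1) := by
  rw [pos_iff, sub_nonneg] at h1 ⊢
  refine le_trans ?_ h1
  refine Finset.single_le_sum (f := fun i => φ i 1) (fun j _ => ?_) (Finset.mem_univ i)
  have := cp_pos (hcp j) 1
  rw [pos_iff] at this
  simpa using this

/-- the key fact: an order zero map preserves zero products -/
lemma mul_zero_same (hcp : ∀ i, CP (φ i)) (h1 : Pos (1 - ∑ i, φ i 1)) (hoz : OZ φ) (i : ι)
    (x z : Matrix (K i) (K i) ℂ) (hxz : x * z = 0) : φ i x * φ i z = 0 := by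
  have hb := one_le_block hcp h1 i
  have key : ∀ x y : Matrix (K i) (K i) ℂ, x * star y = 0 → φ i x * φ i (star y * y) = 0 := by
    intro x y hxy
    refine zero_of_le (schwarz (hcp i) hb x) ?_
    refine oz_same hoz i _ _ ⟨x, rfl⟩ ⟨y, rfl⟩ ?_
    rw [mul_assoc, ← mul_assoc x, hxy, zero_mul, mul_zero]
  have h2 : star (φ i x * φ i z) = 0 := by
    rw [star_mul, ← cp_star (hcp i) x, ← cp_star (hcp i) z]
    refine zero_of_le (schwarz (hcp i) hb (star z)) ?_
    have h3 := key x (star z) (by rw [star_star]; exact hxz)
    have h4 := congrArg star h3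
    rw [star_mul, star_zero, ← cp_star (hcp i) x, ← cp_star (hcp i)] at h4
    rw [star_mul, star_star] at h4
    rw [star_star]
    exact h4
  have := congrArg star h2
  simpa using this

lemma mul_zero_diff (hcp : ∀ i, CP (φ i)) (h1 : Pos (1 - ∑ i, φ i 1)) (hoz : OZ φ) {i i' : ι}
    (hii : i ≠ i') (x : Matrix (K i) (K i) ℂ) (z : Matrix (K i') (K i') ℂ) :
    φ i x * φ i' z = 0 := by
  have hb := one_le_block hcp h1 i
  have hb' := one_le_block hcp h1 i'
  have key : ∀ (x : Matrix (K i) (K i) ℂ) (y : Matrix (K i') (K i') ℂ),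
      φ i x * φ i' (star y * y) = 0 := by
    intro x y
    exact zero_of_le (schwarz (hcp i) hb x) (oz_diff hoz hii _ _ ⟨x, rfl⟩ ⟨y, rfl⟩)
  have h2 : star (φ i x * φ i' z) = 0 := by
    rw [star_mul, ← cp_star (hcp i) x, ← cp_star (hcp i') z]
    refine zero_of_le (schwarz (hcp i') hb' (star z)) ?_
    have h3 := key x (star z)
    have h4 := congrArg star h3
    rw [star_mul, star_zero, ← cp_star (hcp i) x, ← cp_star (hcp i')] at h4
    rw [star_mul, star_star] at h4
    rw [star_star]
    exact h4
  have := congrArg star h2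
  simpa using this

end

section
attribute [local instance] CStarAlgebra.spectralOrder CStarAlgebra.spectralOrderedRing

theorem t_OZ1 : S_OZ1 := by
  intro B _ ι _ _ K _ _ φ hcp h1 hoz
  have hst : ∀ (i : ι) (k l : K i), star (Matrix.single k l (1:ℂ)) = Matrix.single l k 1 := by
    intro i k l
    rw [Matrix.star_eq_conjTranspose, Matrix.conjTranspose_single, star_one]
  have hmis : ∀ (i : ι) (k l m n : K i), l ≠ m →
      φ i (Matrix.single k l 1) * φ i (Matrix.single m n 1) = 0 := by
    intro i k l m n hlm
    refine mul_zero_same hcp h1 hoz i _ _ ?_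
    exact Matrix.single_mul_single_of_ne _ _ _ _ hlm _
  have hmul : ∀ (i : ι) (k l m : K i),
      φ i (Matrix.single k l 1) * φ i (Matrix.single l m 1)
        = φ i (Matrix.single k k 1) * φ i (Matrix.single k m 1) := by
    intro i k l m
    by_cases hkl : k = l
    · subst hkl; rfl
    have h := mul_zero_same hcp h1 hoz i (Matrix.single k k 1 + Matrix.single k l 1)
      (Matrix.single l m 1 - Matrix.single k m 1) (by
        rw [add_mul, mul_sub, mul_sub, Matrix.single_mul_single_same,
          Matrix.single_mul_single_same, Matrix.single_mul_single_of_ne _ _ _ _ hkl,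
          Matrix.single_mul_single_of_ne _ _ _ _ (Ne.symm hkl)]
        simp)
    rw [map_add, map_sub, add_mul, mul_sub, mul_sub, hmis i k k l m hkl,
      hmis i k l k m (Ne.symm hkl)] at h
    rw [zero_sub, sub_zero, neg_add_eq_zero] at h
    exact h.symm
  refine ⟨?_, ?_, hmul, ?_, ?_, ?_⟩
  · intro i k l
    rw [← cp_star (hcp i), hst]
  · intro i k l i' m n hne
    by_cases hii : i = i'
    · subst hii
      refine hmis i k l m n fun h => hne ?_
      rw [h]
    · exact mul_zero_diff hcp h1 hoz hii _ _
  · intro i k m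
    exact (hmul i k m m).symm
  · intro i k
    have := cp_pos (hcp i) (Matrix.single k k 1)
    rwa [hst, Matrix.single_mul_single_same, one_mul] at this
  · intro i k
    have hb := one_le_block hcp h1 i
    rw [pos_iff] at hb ⊢
    have h2 : (0 : B) ≤ φ i (1 - Matrix.single k k 1) := by
      have h3 := cp_pos (hcp i) (1 - Matrix.single k k 1)
      rw [pos_iff, star_sub, star_one, hst] at h3
      have h4 : (1 - Matrix.single k k (1:ℂ)) * (1 - Matrix.single k k 1)
          = 1 - Matrix.single k k 1 := by
        rw [sub_mul, mul_sub, mul_sub, Matrix.single_mul_single_same]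
        simp
      rwa [h4] at h3
    rw [map_sub] at h2
    calc (0:B) ≤ (1 - φ i 1) + (φ i 1 - φ i (Matrix.single k k 1)) := add_nonneg hb h2
      _ = _ := by abel

end

end Run7.h519.CE
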