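import Pool.Agent.Run7.h450.CE.Iface

/-! Project CE, piece TOS: a compatible system is a system. -/

set_option autoImplicit false
open Run7.h450.CE
open scoped ComplexOrder

namespace Run7.h519.CE

section pos
variable {B : Type} [CStarAlgebra B]

attribute [local instance] CStarAlgebra.spectralOrder CStarAlgebra.spectralOrderedRing

lemma pos_iff (x : B) : Pos x ↔ 0 ≤ x := by
  unfold Pos
  exact (CStarAlgebra.nonneg_iff_eq_star_mul_self).symm

lemma pos_sum_star_mul {ι : Type*} (s : Finset ι) (w : ι → B) :
    Pos (∑ m ∈ s, star (w m) * w m) := by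
  rw [pos_iff]
  exact Finset.sum_nonneg fun m _ => star_mul_self_nonneg _

/-- a selfadjoint `a` with `a ^ 2 ≤ a` is at most `1` -/
lemma le_one_of_sq_le {a : B} (h0 : 0 ≤ a) (h : a * a ≤ a) : a ≤ 1 := by
  nontriviality B
  have hsa : IsSelfAdjoint a := IsSelfAdjoint.of_nonneg h0
  have h1 : ‖a * a‖ ≤ ‖a‖ := by
    refine CStarAlgebra.norm_le_norm_of_nonneg_of_le ?_ h
    have := star_mul_self_nonneg a
    rwa [hsa.star_eq] at this
  have h2 : ‖a * a‖ = ‖a‖ * ‖a‖ := by
    have := CStarRing.norm_star_mul_self (x := a)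
    rwa [hsa.star_eq] at this
  rw [h2] at h1
  have h3 : ‖a‖ ≤ 1 := by
    by_contra hc
    push Not at hc
    nlinarith
  exact (CStarAlgebra.norm_le_one_iff_of_nonneg a h0).1 h3

/-- the sum of `x x*` over an orthogonal row of elements with `x* x ≤ 1` is at most one -/
lemma sum_le_one {ι : Type*} [Fintype ι] [DecidableEq ι] (x : ι → B)
    (ho : ∀ i j, i ≠ j → star (x i) * x j = 0) (h1 : ∀ i, Pos (1 - star (x i) * x i)) :
    Pos (1 - ∑ i, x i * star (x i)) := by
  rw [pos_iff, sub_nonneg]
  set a := ∑ i, x i * star (x i) with ha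
  have h0 : 0 ≤ a := Finset.sum_nonneg fun i _ => mul_star_self_nonneg _
  refine le_one_of_sq_le h0 ?_
  have hsq : a * a = ∑ i, x i * (star (x i) * x i) * star (x i) := by
    rw [ha, Finset.sum_mul_sum]
    refine Finset.sum_congr rfl fun i _ => ?_
    rw [Finset.sum_eq_single i]
    · simp only [mul_assoc]
    · intro j _ hj
      have := ho i j hj.symm
      calc x i * star (x i) * (x j * star (x j)) = x i * (star (x i) * x j) * star (x j) := by
            simp only [mul_assoc]
        _ = 0 := by rw [this]; simp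
    · intro h; exact absurd (Finset.mem_univ i) h
  rw [hsq, ha, ← sub_nonneg, ← Finset.sum_sub_distrib]
  refine Finset.sum_nonneg fun i _ => ?_
  have e : x i * star (x i) - x i * (star (x i) * x i) * star (x i)
      = x i * (1 - star (x i) * x i) * star (x i) := by
    noncomm_ring
  rw [e]
  exact star_right_conjugate_nonneg ((pos_iff _).1 (h1 i)) (x i)

end pos

/-- the map `y ↦ ∑ y_kl x_k x_l*` -/
noncomputable def phi {B : Type} [CStarAlgebra B] {K : Type} [Fintype K] (x : K → B) :
    Matrix K K ℂ →ₗ[ℂ] B where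
  toFun y := ∑ k, ∑ l, y k l • (x k * star (x l))
  map_add' y z := by
    simp only [Matrix.add_apply, add_smul, Finset.sum_add_distrib]
  map_smul' c y := by
    simp only [Matrix.smul_apply, smul_eq_mul, mul_smul, Finset.smul_sum, RingHom.id_apply]

lemma phi_apply {B : Type} [CStarAlgebra B] {K : Type} [Fintype K] (x : K → B)
    (y : Matrix K K ℂ) : phi x y = ∑ k, ∑ l, y k l • (x k * star (x l)) := rfl

lemma phi_one {B : Type} [CStarAlgebra B] {K : Type} [Fintype K] [DecidableEq K] (x : K → B) :
    phi x 1 = ∑ k, x k * star (x k) := by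
  rw [phi_apply]
  refine Finset.sum_congr rfl fun k _ => ?_
  rw [Finset.sum_eq_single k]
  · simp
  · intro l _ hl
    rw [Matrix.one_apply_ne hl.symm, zero_smul]
  · intro h; exact absurd (Finset.mem_univ k) h

lemma sum5 {M : Type*} [AddCommMonoid M] {I J K L N : Type*} [Fintype I] [Fintype J] [Fintype K]
    [Fintype L] [Fintype N] (T : I → J → K → L → N → M) :
    ∑ m, ∑ i, ∑ k, ∑ j, ∑ l, T i j k l m = ∑ i, ∑ j, ∑ k, ∑ l, ∑ m, T i j k l m := by
  rw [Finset.sum_comm]
  refine Finset.sum_congr rfl fun i _ => ?_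
  have h1 : ∀ m, ∑ k, ∑ j, ∑ l, T i j k l m = ∑ j, ∑ k, ∑ l, T i j k l m := fun m =>
    Finset.sum_comm
  simp only [h1]
  rw [Finset.sum_comm]
  refine Finset.sum_congr rfl fun j _ => ?_
  rw [Finset.sum_comm]
  refine Finset.sum_congr rfl fun k _ => ?_
  rw [Finset.sum_comm]

lemma phi_cp {B : Type} [CStarAlgebra B] {K : Type} [Fintype K] (x : K → B) : CP (phi x) := by
  intro n a b
  have key : ∑ i, ∑ j, star (b i) * phi x (star (a i) * a j) * b j
      = ∑ m, star (∑ j, ∑ l, a j m l • (star (x l) * b j)) *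
          (∑ j, ∑ l, a j m l • (star (x l) * b j)) := by
    have e2 : ∀ m, star (∑ j, ∑ l, a j m l • (star (x l) * b j)) *
          (∑ j, ∑ l, a j m l • (star (x l) * b j))
        = ∑ i, ∑ k, ∑ j, ∑ l, (star (a i m k) * a j m l) •
            (star (b i) * (x k * star (x l)) * b j) := by
      intro m
      rw [star_sum, Finset.sum_mul]
      refine Finset.sum_congr rfl fun i _ => ?_
      rw [star_sum, Finset.sum_mul]
      refine Finset.sum_congr rfl fun k _ => ?_
      rw [Finset.mul_sum]
      refine Finset.sum_congr rfl fun j _ => ?_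
      rw [Finset.mul_sum]
      refine Finset.sum_congr rfl fun l _ => ?_
      rw [star_smul, star_mul, star_star, smul_mul_smul_comm]
      simp only [mul_assoc]
    have e1 : ∀ i j, star (b i) * phi x (star (a i) * a j) * b j
        = ∑ k, ∑ l, ∑ m, (star (a i m k) * a j m l) •
            (star (b i) * (x k * star (x l)) * b j) := by
      intro i j
      rw [phi_apply]
      simp only [Matrix.star_eq_conjTranspose, Matrix.mul_apply, Matrix.conjTranspose_apply,
        Finset.sum_smul, Finset.mul_sum, Finset.sum_mul, mul_smul_comm, smul_mul_assoc]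
    simp only [e1, e2]
    exact (sum5 (fun i j k l m => (star (a i m k) * a j m l) •
            (star (b i) * (x k * star (x l)) * b j))).symm
  rw [key]
  exact pos_sum_star_mul _ _

lemma phi_mul_same {B : Type} [CStarAlgebra B] {K : Type} [Fintype K] (x : K → B) (h : B)
    (ho : ∀ k l, k ≠ l → star (x k) * x l = 0) (hm : ∀ k, star (x k) * x k = h)
    (y z : Matrix K K ℂ) (hyz : y * z = 0) : phi x y * phi x z = 0 := by
  classical
  have e : phi x y * phi x z = ∑ k, ∑ n, (y * z) k n • (x k * h * star (x n)) := by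
    rw [phi_apply, phi_apply, Finset.sum_mul]
    refine Finset.sum_congr rfl fun k _ => ?_
    rw [Finset.sum_mul]
    have e1 : ∀ l, (y k l • (x k * star (x l))) * (∑ m, ∑ n, z m n • (x m * star (x n)))
        = ∑ n, (y k l * z l n) • (x k * h * star (x n)) := by
      intro l
      simp only [Finset.mul_sum]
      rw [Finset.sum_eq_single l]
      · refine Finset.sum_congr rfl fun n _ => ?_
        rw [smul_mul_smul_comm, ← hm l]
        simp only [mul_assoc]
      · intro m _ hml
        refine Finset.sum_eq_zero fun n _ => ?_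
        have := ho l m hml.symm
        rw [smul_mul_smul_comm]
        have e3 : x k * star (x l) * (x m * star (x n)) = x k * (star (x l) * x m) * star (x n) := by
          simp only [mul_assoc]
        rw [e3, this]; simp
      · intro hl; exact absurd (Finset.mem_univ l) hl
    rw [Finset.sum_congr rfl fun l _ => e1 l, Finset.sum_comm]
    refine Finset.sum_congr rfl fun n _ => ?_
    rw [Matrix.mul_apply, Finset.sum_smul]
  rw [e, hyz]
  simp

lemma phi_mul_diff {B : Type} [CStarAlgebra B] {K K' : Type} [Fintype K] [Fintype K'] (x : K → B)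
    (x' : K' → B) (ho : ∀ k l, star (x k) * x' l = 0)
    (y : Matrix K K ℂ) (z : Matrix K' K' ℂ) : phi x y * phi x' z = 0 := by
  simp only [phi_apply, Finset.sum_mul, Finset.mul_sum]
  refine Finset.sum_eq_zero fun k _ => Finset.sum_eq_zero fun l _ => Finset.sum_eq_zero fun m _ =>
    Finset.sum_eq_zero fun n _ => ?_
  rw [smul_mul_smul_comm]
  have e3 : ∀ (p q r s : B), p * q * (r * s) = p * (q * r) * s := by
    intro p q r s; simp only [mul_assoc]
  rw [e3, ho]
  simp

theorem t_TOS : S_TOS := by
  classical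
  intro d N B _ P c
  refine ⟨{ ι := c.ι, fι := c.fι, K := c.K, fK := c.fK, dK := c.dK, col := c.col, ψ := c.ψ
            φ := fun i => phi (c.x i)
            ψ_cp := c.ψ_cp, ψ_one := c.ψ_one
            φ_cp := fun i => phi_cp _
            φ_one := ?_
            φ_oz := ?_ }, ?_, ?_⟩
  · intro c0
    have e : ∑ i : {i // c.col i = c0}, phi (c.x i.1) 1
        = ∑ κ : Σ i : {i // c.col i = c0}, c.K i.1, c.x κ.1.1 κ.2 * star (c.x κ.1.1 κ.2) := by
      rw [Fintype.sum_sigma]
      exact Finset.sum_congr rfl fun i _ => phi_one _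
    rw [e]
    refine sum_le_one (fun κ : Σ i : {i // c.col i = c0}, c.K i.1 => c.x κ.1.1 κ.2) ?_ ?_
    · rintro ⟨⟨i, hi⟩, k⟩ ⟨⟨i', hi'⟩, k'⟩ hne
      refine c.orth i k i' k' (hi.trans hi'.symm) ?_
      intro heq
      apply hne
      cases heq
      rfl
    · rintro ⟨⟨i, hi⟩, k⟩
      change Pos (1 - star (c.x i k) * c.x i k)
      rw [c.mod]
      exact c.h_le i
  · intro c0 a a' _ _ haa
    change (∑ i : {i // c.col i = c0}, phi (c.x i.1) (a i)) *
      (∑ i : {i // c.col i = c0}, phi (c.x i.1) (a' i)) = 0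
    rw [Finset.sum_mul_sum]
    refine Finset.sum_eq_zero fun i _ => Finset.sum_eq_zero fun i' _ => ?_
    by_cases hii : i = i'
    · subst hii
      refine phi_mul_same (c.x i.1) (c.h i.1) ?_ (c.mod i.1) _ _ (haa i)
      intro k l hkl
      refine c.orth i.1 k i.1 l rfl ?_
      intro heq
      exact hkl (by simpa using heq)
    · refine phi_mul_diff _ _ ?_ _ _
      intro k l
      refine c.orth i.1 k i'.1 l (i.2.trans i'.2.symm) ?_
      intro heq
      exact hii (Subtype.ext (congrArg Sigma.fst heq))
  · intro z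
    rfl
  · change ∑ i, Fintype.card (c.K i) = ∑ j, ∑ i, (Finset.univ.filter (fun k => c.j i k = j)).card
    rw [Finset.sum_comm]
    refine Finset.sum_congr rfl fun i _ => ?_
    rw [← Finset.card_univ]
    exact Finset.card_eq_sum_card_fiberwise (f := c.j i) (t := Finset.univ) (by intro x _; simp)

end Run7.h519.CE
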